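import Pool.Agent.H352R3.SA.Fin

/-!
# Removing compact sets of zero analytic capacity (MP_dfc9b7_an, Q1)

If `K` is compact with `γ(K) = 0`, then `γ(E \ K) = γ(E)` for every compact `E`, where `γ(E \ K)` is
the inner capacity `sup {γ(L) : L ⊆ E \ K compact}`.
-/

set_option autoImplicit false

open Filter Topology

namespace Pool.Agent.Results.MP_dfc9b7_an.NullSetRemoval

/-- the numbers `|f'(∞)|` for `f` holomorphic off `E` with `|f| ≤ 1` there and `z f(z) → f'(∞)`
at infinity (in particular `f(∞) = 0`) -/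
def derivativesAtInfinity (E : Set ℂ) : Set ℝ :=
  {c | ∃ (f : ℂ → ℂ) (l : ℂ), DifferentiableOn ℂ f Eᶜ ∧ (∀ z ∈ Eᶜ, ‖f z‖ ≤ 1) ∧
    Tendsto (fun z => z * f z) (cocompact ℂ) (𝓝 l) ∧ c = ‖l‖}

/-- analytic capacity of a compact set -/
noncomputable def analyticCapacity (E : Set ℂ) : ℝ := sSup (derivativesAtInfinity E)

/-- inner capacity of a set that need not be compact -/
noncomputable def innerCapacity (X : Set ℂ) : ℝ :=
  sSup {c : ℝ | ∃ L : Set ℂ, IsCompact L ∧ L ⊆ X ∧ c = analyticCapacity L}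

theorem result (E K : Set ℂ) (hE : IsCompact E) (hK : IsCompact K)
    (hK0 : analyticCapacity K = 0) : innerCapacity (E \ K) = analyticCapacity E :=
  Pool.Agent.H352R3.SA.gamma_remove hE hK hK0

end Pool.Agent.Results.MP_dfc9b7_an.NullSetRemoval
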