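import Pool.Agent.H352R3.SA.Strong

/-!
# Analytic capacity is strongly subadditive

`γ(A ∪ B) + γ(A ∩ B) ≤ γ(A) + γ(B)` for all compact sets `A`, `B` of the plane.
-/

set_option autoImplicit false

open Filter Topology

namespace Pool.Agent.Results.MP_dfc9b7_an.StrongSubadditivity

/-- the numbers `|f'(∞)|` for `f` holomorphic off `E` with `|f| ≤ 1` there and `z f(z) → f'(∞)`
at infinity (in particular `f(∞) = 0`) -/
def derivativesAtInfinity (E : Set ℂ) : Set ℝ :=
  {c | ∃ (f : ℂ → ℂ) (l : ℂ), DifferentiableOn ℂ f Eᶜ ∧ (∀ z ∈ Eᶜ, ‖f z‖ ≤ 1) ∧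
    Tendsto (fun z => z * f z) (cocompact ℂ) (𝓝 l) ∧ c = ‖l‖}

/-- analytic capacity of a compact set -/
noncomputable def analyticCapacity (E : Set ℂ) : ℝ := sSup (derivativesAtInfinity E)

theorem result (A B : Set ℂ) (hA : IsCompact A) (hB : IsCompact B) :
    analyticCapacity (A ∪ B) + analyticCapacity (A ∩ B) ≤
      analyticCapacity A + analyticCapacity B :=
  Pool.Agent.H352R3.SA.gamma_strong hA hB

end Pool.Agent.Results.MP_dfc9b7_an.StrongSubadditivity
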